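import Pool.Agent.Run7.h696.CA.FinB
import Pool.Agent.Run7.h225.HG.Tup
import Pool.Agent.Run7.h696.CF.Ev

/-!
# Hyperlogarithms and periods of hypergeometric motives at correlated algebraic fibres: almost always there are no relations of
bounded degree, except those of the single motives and the shuffle relations

Let `α_1, …, α_n` be rational numbers which are not integers with the sum `0`, `n ≥ 2`, `θ = z d/dz` and
`Q(x) = ∏_j (x + α_j)`. The fibres of the family of hypergeometric motives `θ^n - z Q(θ)` occur in the cohomology of smooth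
projective varieties (toric hypersurfaces). Their periods near `z = 0` are linear combinations with constant coefficients of
the numbers `(θ^i f_j)(z)`, where `f_0, …, f_{n-1}` is the basis of solutions given by the Frobenius method (the monodromy at
`0` is maximally unipotent).

For finitely many such equations `e_j` and linear polynomials `ℓ_j(t) = a_j t + b_j` over `ℚ` we consider the `j`-th family at
the fibre `1 / ℓ_j(ξ)`, for example one family at the fibres `1 / ξ, 1 / (ξ - 1), …, 1 / (ξ - s)`. The fibres are correlated: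
the points of the product family lie on one rational curve in the product of the bases. Let moreover `c_1, …, c_m` be
different integers, not `0`, and `τ` an integer. The iterated integrals from `0` of the forms `dz / z` and `dz / (1 - c_s z)`
are the hyperlogarithms `L_w(z)`; at `z = 1 / (ξ - τ)` they are iterated integrals from infinity to `ξ` with singular points
`τ, τ + c_1, …, τ + c_m`, that is periods of the mixed Tate motives of the fundamental groupoid of the line without these
points (over the number field generated by `ξ`). The torsor of the hyperlogarithms is the set of the characters of the shuffle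
algebra.

We consider the direct sum of all these motives, mixed Tate and hypergeometric, for almost all tuples `(ξ_1, …, ξ_k)` of
algebraic integers of bounded degree, and prove that all polynomial relations of bounded degree between the numbers
`log (ξ_i - τ)`, the values of all hyperlogarithms of bounded weight and the period matrices, with coefficients in number
fields of bounded degree times an arbitrary finite dimensional space of constants, hold on the product of the torsors: they
are consequences of the shuffle relations, the determinants and the bilinear relations. The proportion of the exceptional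
tuples is a negative power of the bound for the conjugates if the parameters are fixed. In particular, all parameters (the
degree of the relations, the weight, the letters and their number, the degrees of the number fields, the dimension of the
space of constants, the number and the degree of the points, the lists of equations and polynomials) may grow with the bound
for the conjugates.

The condition on the equations and polynomials is that if `ℓ_i` and `ℓ_j` have the value `1` at the same point then the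
exponents at infinity of `e_i` are not those of `e_j` or of its dual modulo `ℤ`, and that there is an integer `τ` with
`ℓ_j(τ) ≤ 0` for all `j`. If all `a_j` are positive, then there is always such a `τ`.

Proof of the functional part (`Pool/Agent/Run7/h696/CF`): the pull-back of the `j`-th system has a transvection as local
monodromy at the point with `ℓ_j = 1` and no other singular point between this point and infinity on the side of `τ` where it
lies. The local monodromy at the singular points with the largest distance from `τ` and their conjugates by the monodromy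
at infinity generate the product of the groups of the families which are singular there; so these families may be replaced by
constants in all relations, and one goes on with the remaining ones. The hyperlogarithms (`Pool/Agent/Run7/h696/CP`): if a
combination of the logarithms of the `1 - c_s z` is in the field generated by all the solutions, then the group acts on it by
addition of constants; as a transvection is conjugate to its fourth power, this action is trivial, so the combination is a
rational function, which is impossible. Hence all hyperlogarithms are linearly independent over this field. The arithmetic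
part is a theorem on G-functions at algebraic points of bounded degree (`Pool/Agent/Y916`).
-/

set_option autoImplicit false

open PowerSeries Pool.Agent.Y119.HZ Pool.Agent.Run7.h225.HG Pool.Agent.Run7.h696.CF Run7.h893.HO Pool.Agent.Run7.h696.CA

namespace Pool.Agent.Results.MP_12eca1_ag.CorrelatedMixedMotives

/-- The coefficients of the hyperlogarithms of the words in the letters `none` (the form `dz / z`) and `some s` (the form
`dz / (1 - c_s z)`, `s` in `Fin m`): `L_w(z) = ∑_k coef w k z^k`, `L_[] = 1`, `L_w(0) = 0` if `w` is not empty,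
`d L_(none w) = L_w dz / z` and `d L_(some s w) = L_w dz / (1 - c_s z)`. -/
def coef {m : ℕ} (c : Fin m → ℤ) : List (Option (Fin m)) → ℕ → ℚ
  | [], k => if k = 0 then 1 else 0
  | none :: w, k => coef c w k / k
  | some s :: w, k => (∑ l ∈ Finset.range k, (c s : ℚ) ^ (k - 1 - l) * coef c w l) / k

/-- the hyperlogarithm `L_w(z)`, `|z| < 1`, `|c_s z| < 1` -/
noncomputable def hlog {m : ℕ} (c : Fin m → ℤ) (w : List (Option (Fin m))) (z : ℂ) : ℂ := ∑' k : ℕ, (coef c w k : ℂ) * z ^ k

/-- the word does not end with the letter `none` -/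
def Convergent {m : ℕ} (w : List (Option (Fin m))) : Prop := w.getLast? ≠ some none

/-- the convergent words of length (weight) at most `W` -/
abbrev Word (m W : ℕ) : Type := {w : List (Option (Fin m)) // w.length ≤ W ∧ Convergent w}

/-- the terms of the shuffle product of two words -/
def shuffle {A : Type} : List A → List A → List (List A)
  | [], v => [v]
  | a :: u, [] => [a :: u]
  | a :: u, b :: v => (shuffle u (b :: v)).map (a :: ·) ++ (shuffle (a :: u) v).map (b :: ·)

/-- The characters of the shuffle algebra of the convergent words: `x(u) x(v)` is the sum of the values of `x` at the terms of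
the shuffle product of `u` and `v`. -/
def Character {m : ℕ} (x : List (Option (Fin m)) → ℂ) : Prop :=
  x [] = 1 ∧ ∀ u v, Convergent u → Convergent v → x u * x v = ((shuffle u v).map x).sum

/-- different letters, not `0` -/
def Letters {m : ℕ} (c : Fin m → ℤ) : Prop := Function.Injective c ∧ ∀ s, c s ≠ 0

/-- A hypergeometric equation `θ^n f = z ∏_j (θ + α_j) f`. -/
structure Eqn where
  n : ℕ
  α : Fin n → ℚ

/-- the dual equation (the exponents at infinity are `-α_j`) -/
def Eqn.dual (e : Eqn) : Eqn := ⟨e.n, fun j => -e.α j⟩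

/-- the multiset of the fractional parts of the `α_j` -/
def Eqn.frac (e : Eqn) : Multiset ℚ := Multiset.map (fun j => Int.fract (e.α j)) Finset.univ.val

/-- the polynomial `Q = ∏_j (x + α_j)` -/
noncomputable def Eqn.poly (e : Eqn) : Polynomial ℚ := ∏ j, (Polynomial.X + Polynomial.C (e.α j))

/-- `Q(-x) = Q(x)` -/
def Eqn.Symplectic (e : Eqn) : Prop := e.poly.comp (-Polynomial.X) = e.poly

/-- The order is at least two, the exponents at infinity are not integers, their sum is `0`, and either the fractional parts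
of the `α_j` and of the `-α_j` are different multisets or `Q(-x) = Q(x)`. -/
def Eqn.Admissible (e : Eqn) : Prop :=
  2 ≤ e.n ∧ (∀ j, ∀ a : ℤ, e.α j ≠ a) ∧ ∑ j, e.α j = 0 ∧ (e.frac ≠ e.dual.frac ∨ e.Symplectic)

/-- A list of equations `e_j`, linear polynomials `ℓ_j(t) = a_j t + b_j` and an integer `τ`: the equations are admissible,
`a_j ≠ 0` and `ℓ_j(τ) ≤ 0`, and if two polynomials have the value `1` at the same point, then the exponents at infinity
of the two equations, and of one of them and of the dual of the other one, are different modulo `ℤ`. -/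
def Good {r : ℕ} (e : Fin r → Eqn) (a b : Fin r → ℚ) (τ : ℤ) : Prop :=
  (∀ j, (e j).Admissible ∧ a j ≠ 0 ∧ a j * τ + b j ≤ 0) ∧
  ∀ i j, i ≠ j → (1 - b i) / a i = (1 - b j) / a j → (e i).frac ≠ (e j).frac ∧ (e i).frac ≠ (e j).dual.frac

/-- the power series `k + ε` in the variable `ε` -/
noncomputable def shift (k : ℕ) : PowerSeries ℚ := C (k : ℚ) + X

/-- `a_k(ε) = ∏_{l < k} Q(l + ε) / (l + 1 + ε)^n`. The series `∑_k a_k(ε) z^(k + ε)` solves the equation
`(θ^n - z Q(θ)) f = ε^n z^ε`, hence its coefficients `f_j` at `ε^j` with `j < n` are solutions of the homogeneous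
equation. -/
noncomputable def Eqn.frob (e : Eqn) (k : ℕ) : PowerSeries ℚ :=
  ∏ l ∈ Finset.range k, (Polynomial.aeval (shift l) e.poly * ((shift (l + 1))⁻¹) ^ e.n)

/-- The matrix with the entries `(θ^i f_j)(z)`, `|z| < 1`, where `f_j(z)` is the coefficient of `ε^j` in the series
`∑_k a_k(ε) z^(k + ε)`, `z^ε = ∑_a (log z)^a ε^a / a!`, with the value `l` of `log z`. -/
noncomputable def Eqn.Y (e : Eqn) (z l : ℂ) : Matrix (Fin e.n) (Fin e.n) ℂ :=
  Matrix.of fun i j => ∑ a ∈ Finset.range ((j : ℕ) + 1), l ^ a / (a.factorial : ℂ) *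
    ∑' k : ℕ, ((coeff ((j : ℕ) - a) (shift k ^ (i : ℕ) * e.frob k) : ℚ) : ℂ) * z ^ k

/-- The matrix of the alternating form: the entry `(i, j)` is `(-1)^i q_{i+j+1-n}` for `i + j + 1 ≥ n` and `0`
otherwise, where `q_l` are the coefficients of `Q`. -/
noncomputable def Eqn.J (e : Eqn) : Matrix (Fin e.n) (Fin e.n) ℂ :=
  Matrix.of fun i j => if e.n ≤ (i : ℕ) + j + 1 then (((-1) ^ (i : ℕ) * e.poly.coeff (i + j + 1 - e.n) : ℚ) : ℂ) else 0

/-- The torsor (a group) of the equation: `det X = 1`, and `Xᵀ J X = J` if `Q(-x) = Q(x)`. -/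
def Eqn.G (e : Eqn) : Set (Matrix (Fin e.n) (Fin e.n) ℂ) :=
  {X | X.det = 1 ∧ (e.Symplectic → X.transpose * e.J * X = e.J)}

/-- the coordinates: `k` numbers, `k` lists of matrices and `k` numbers for every word -/
abbrev Coord {r : ℕ} (e : Fin r → Eqn) (k m W : ℕ) : Type :=
  (Σ _ : Fin k, Option (Σ j : Fin r, Fin (e j).n × Fin (e j).n)) ⊕ Fin k × Word m W

/-- the point with the coordinates `l_i`, the entries of the matrices `X_ij` and the numbers `x_i(w)` -/
def point {r k m W : ℕ} {e : Fin r → Eqn} (l : Fin k → ℂ) (X : Fin k → ∀ j, Matrix (Fin (e j).n) (Fin (e j).n) ℂ)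
    (x : Fin k → List (Option (Fin m)) → ℂ) : Coord e k m W → ℂ
  | Sum.inl ⟨i, none⟩ => l i
  | Sum.inl ⟨i, some ⟨j, p⟩⟩ => X i j p.1 p.2
  | Sum.inr (i, w) => x i w.1

/-- `ξ` is an algebraic integer of degree at most `g` all of whose conjugates have absolute value at most `T` -/
def House (g T : ℕ) (ξ : ℂ) : Prop :=
  IsIntegral ℤ ξ ∧ (minpoly ℚ ξ).natDegree ≤ g ∧ ∀ z : ℂ, Polynomial.aeval z (minpoly ℚ ξ) = 0 → ‖z‖ ≤ T

/-- For a logarithm `l` of `ξ - τ` the logarithm `l + Log a + Log(ℓ(ξ) / (a (ξ - τ)))` of `ℓ(ξ)`, `ℓ(t) = a t + b`, with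
principal values `Log`. -/
noncomputable def branch (a b : ℚ) (τ : ℤ) (ξ l : ℂ) : ℂ :=
  l + Complex.log (a : ℂ) + Complex.log (((a : ℂ) * ξ + b) / ((a : ℂ) * (ξ - τ)))

/-- some `ξ_i - τ` has absolute value at most `1` or at most `|c_s|` for some `s`, or some `ℓ_j(ξ_i)` has absolute value at
most `1` -/
def Small {r k m : ℕ} (a b : Fin r → ℚ) (τ : ℤ) (c : Fin m → ℤ) (ξ : Fin k → ℂ) : Prop :=
  ∃ i, ‖ξ i - τ‖ ≤ 1 ∨ (∃ s, ‖ξ i - τ‖ ≤ |(c s : ℝ)|) ∨ ∃ j, ‖(a j : ℂ) * ξ i + b j‖ ≤ 1

/-- There are values `l_i` of the logarithms of the `ξ_i - τ`, a number field `L` of degree `≤ d` and a polynomial relation of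
degree `≤ δ` with coefficients in `L V` between the numbers `l_i`, the entries of the matrices `Y_j(1 / ℓ_j(ξ_i)) Ω_ij`
(with the branches of the logarithms of the `ℓ_j(ξ_i)` given by `l_i`) and the numbers `L_w(1 / (ξ_i - τ))`, `w` of weight
`≤ W`, which does not vanish identically on the set of the points with arbitrary coordinates `l'_i`, the entries of `X_ij Ω_ij`
with `X_ij` in the torsor of `e_j` and the values of arbitrary characters `x_i` of the shuffle algebra. -/
def Exceptional {r k m : ℕ} (δ d W : ℕ) (V : Submodule ℚ ℂ) (e : Fin r → Eqn) (a b : Fin r → ℚ) (τ : ℤ) (c : Fin m → ℤ)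
    (Ω : Fin k → ∀ j, Matrix (Fin (e j).n) (Fin (e j).n) ℂ) (ξ : Fin k → ℂ) : Prop :=
  ∃ l : Fin k → ℂ, (∀ i, Complex.exp (l i) = ξ i - τ) ∧
    ∃ L : IntermediateField ℚ ℂ, FiniteDimensional ℚ L ∧ Module.finrank ℚ L ≤ d ∧
    ∃ P : MvPolynomial (Coord e k m W) ℂ, P.totalDegree ≤ δ ∧ (∀ s, P.coeff s ∈ Submodule.span L (V : Set ℂ)) ∧
      MvPolynomial.aeval (point l (fun i j =>
        (e j).Y (1 / ((a j : ℂ) * ξ i + b j)) (-branch (a j) (b j) τ (ξ i) (l i)) * Ω i j)
        fun i w => hlog c w (1 / (ξ i - τ))) P = 0 ∧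
      ∃ (l' : Fin k → ℂ) (X : Fin k → ∀ j, Matrix (Fin (e j).n) (Fin (e j).n) ℂ) (x : Fin k → List (Option (Fin m)) → ℂ),
        (∀ i j, X i j ∈ (e j).G) ∧ (∀ i, Character (x i)) ∧
        MvPolynomial.aeval (point l' (fun i j => X i j * Ω i j) x) P ≠ 0

/-- the numerator and the denominator are at most `B` -/
def RatSize (q : ℚ) (B : ℕ) : Prop := |q.num| ≤ B ∧ q.den ≤ B

/-- the orders of the equations, the numerators and the denominators of their exponents and of the coefficients of the
`ℓ_j`, `|τ|` and all `|c_s|` are at most `B` -/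
def Size {r m : ℕ} (e : Fin r → Eqn) (a b : Fin r → ℚ) (τ : ℤ) (c : Fin m → ℤ) (B : ℕ) : Prop :=
  (∀ j, (e j).n ≤ B ∧ ∀ i, RatSize ((e j).α i) B) ∧ (∀ j, RatSize (a j) B) ∧ (∀ j, RatSize (b j) B) ∧ |τ| ≤ B ∧
    ∀ s, |c s| ≤ B

/-- For every `ℚ`-space `V` of complex numbers of dimension `≤ D` and all complex matrices `Ω_ij` the number of the small or
exceptional `k`-tuples (for relations of degree `≤ δ`, number fields of degree `≤ d` and words of length `≤ W`) of algebraic
integers of degree `≤ g` with conjugates of size `≤ T` is at most `ε N^k`, where `N` is the number of all these algebraic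
integers. -/
def Bound {r m : ℕ} (k g d δ D W : ℕ) (e : Fin r → Eqn) (a b : Fin r → ℚ) (τ : ℤ) (c : Fin m → ℤ) (T : ℕ) (ε : ℝ) : Prop :=
  ∀ V : Submodule ℚ ℂ, Module.Finite ℚ V → Module.finrank ℚ V ≤ D →
    ∀ Ω : Fin k → ∀ j, Matrix (Fin (e j).n) (Fin (e j).n) ℂ,
    {ξ : Fin k → ℂ | (∀ i, House g T (ξ i)) ∧ (Small a b τ c ξ ∨ Exceptional δ d W V e a b τ c Ω ξ)}.Finite ∧
    (({ξ : Fin k → ℂ | (∀ i, House g T (ξ i)) ∧ (Small a b τ c ξ ∨ Exceptional δ d W V e a b τ c Ω ξ)}.ncard : ℕ) : ℝ) ≤
      ε * (({ξ : ℂ | House g T ξ}.ncard : ℕ) : ℝ) ^ k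

theorem coef_eq {m : ℕ} (c : Fin m → ℤ) (w : List (Option (Fin m))) (k : ℕ) :
    coef c w k = Pool.Agent.Run7.h696.CP.co c w k := by
  induction w generalizing k with
  | nil => rfl
  | cons x w ih =>
    rcases x with _ | s
    · show coef c w k / k = Pool.Agent.Run7.h696.CP.co c w k / k
      rw [ih]
    · show (∑ l ∈ Finset.range k, (c s : ℚ) ^ (k - 1 - l) * coef c w l) / k =
        (∑ l ∈ Finset.range k, (c s : ℚ) ^ (k - 1 - l) * Pool.Agent.Run7.h696.CP.co c w l) / k
      simp only [ih]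

theorem hlog_eq {m : ℕ} (c : Fin m → ℤ) (w : List (Option (Fin m))) (z : ℂ) :
    hlog c w z = vz z (Pool.Agent.Run7.h696.CP.hy c w) := by
  unfold hlog vz Pool.Agent.Y916.Al.evc Pool.Agent.Run7.h696.CP.hy
  refine tsum_congr fun k => ?_
  rw [coef_eq, coeff_mk]

theorem shuffle_eq {A : Type} (u v : List A) : shuffle u v = sh u v := by
  induction u generalizing v with
  | nil => rw [shuffle, sh]
  | cons a u ihu =>
    induction v with
    | nil => rw [shuffle, sh]
    | cons b v ihv => rw [shuffle, sh, ihu, ihv]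

theorem char_iff {m : ℕ} (x : List (Option (Fin m)) → ℂ) : Character x ↔ Chr x := by
  constructor
  · rintro ⟨h1, h2⟩
    exact ⟨h1, fun u v hu hv => by rw [h2 u v hu hv, shuffle_eq]⟩
  · rintro ⟨h1, h2⟩
    exact ⟨h1, fun u v hu hv => by rw [h2 u v hu hv, shuffle_eq]⟩

theorem hlog_char {m : ℕ} (c : Fin m → ℤ) {z : ℂ} (hz : ‖z‖ < 1) (hcz : ∀ s, ‖(c s : ℂ) * z‖ < 1) :
    Character fun w => hlog c w z := by
  classical
  rw [char_iff]
  simp only [hlog_eq]
  set S : Finset ℝ := insert 1 (Finset.univ.image fun s => |(c s : ℝ)|) with hS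
  have hSn : S.Nonempty := ⟨1, Finset.mem_insert_self _ _⟩
  have hL1 : 1 ≤ S.max' hSn := Finset.le_max' _ _ (Finset.mem_insert_self _ _)
  have hcL : ∀ s, |(c s : ℝ)| ≤ S.max' hSn := fun s =>
    Finset.le_max' S _ (by
      rw [hS]
      exact Finset.mem_insert_of_mem (Finset.mem_image_of_mem (fun s => |(c s : ℝ)|) (Finset.mem_univ s)))
  refine (pp.val pp.shuf m c _ hL1 hcL).2 z ?_
  rw [lt_div_iff₀ (by linarith), mul_comm]
  rcases Finset.mem_insert.1 (S.max'_mem hSn) with h | h
  · rw [h, one_mul]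
    exact hz
  · obtain ⟨s, -, hs⟩ := Finset.mem_image.1 h
    rw [← hs]
    have h1 := hcz s
    rw [norm_mul, Complex.norm_intCast] at h1
    exact h1

theorem point_eq {r k m W : ℕ} {e : Fin r → Eqn} (l : Fin k → ℂ)
    (X : Fin k → ∀ j, Matrix (Fin (e j).n) (Fin (e j).n) ℂ) (x : Fin k → List (Option (Fin m)) → ℂ) :
    point (W := W) l X x = Sum.elim (pjc (n := fun j => (e j).n) l X) fun p => x p.1 p.2.1 := by
  funext v
  obtain ⟨i, _ | ⟨j, p⟩⟩ | ⟨i, w⟩ := v
  · rfl
  · rfl
  · rfl

theorem frob_eq (e : Eqn) (k : ℕ) : e.frob k = Pool.Agent.Y119.HY.aq e.n e.poly k := rfl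

theorem J_eq (e : Eqn) : e.J = Pool.Agent.Y119.HY.cm (Pool.Agent.Y119.HY.Jm e.n e.poly) := by
  ext i j
  rw [Pool.Agent.Y119.HY.cm_apply]
  unfold Eqn.J Pool.Agent.Y119.HY.Jm
  rw [Matrix.of_apply, Matrix.of_apply]
  split_ifs
  · rfl
  · simp

theorem Y_eq (e : Eqn) (z l : ℂ) : e.Y z l = Pool.Agent.Y119.HY.Hf (Pool.Agent.Y119.HY.Hc e.n e.poly) z *
    Pool.Agent.Y119.HY.E (Pool.Agent.Y119.HY.cm (Pool.Agent.Y119.HY.Am e.n)) l := by
  ext i j
  unfold Eqn.Y
  rw [Matrix.of_apply, Matrix.mul_apply]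
  have hE : ∀ c : Fin e.n, Pool.Agent.Y119.HY.E (Pool.Agent.Y119.HY.cm (Pool.Agent.Y119.HY.Am e.n))
      l c j = ∑ a ∈ Finset.range e.n, if (j : ℕ) = c + a then l ^ a / (a.factorial : ℂ) else 0 := by
    intro c
    unfold Pool.Agent.Y119.HY.E
    rw [Matrix.sum_apply]
    refine Finset.sum_congr rfl fun a _ => ?_
    rw [Matrix.smul_apply, ← Pool.Agent.Y119.HY.cm_pow, Pool.Agent.Y119.HY.cm_apply, Pool.Agent.Y119.HY.Am_pow, smul_eq_mul]
    split_ifs
    · push_cast
      ring
    · simp
  simp only [hE, Finset.mul_sum]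
  rw [Finset.sum_comm]
  have hsub : Finset.range ((j : ℕ) + 1) ⊆ Finset.range e.n := by
    intro a ha
    rw [Finset.mem_range] at ha ⊢
    have := j.2
    omega
  refine Finset.sum_subset_zero_on_sdiff hsub (fun a ha => ?_) fun a ha => ?_
  · rw [Finset.mem_sdiff, Finset.mem_range, Finset.mem_range] at ha
    refine Finset.sum_eq_zero fun c _ => ?_
    rw [if_neg (by omega), mul_zero]
  · rw [Finset.mem_range] at ha
    have hj := j.2
    rw [Finset.sum_eq_single (⟨(j : ℕ) - a, by omega⟩ : Fin e.n)]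
    · rw [if_pos (by simp only; omega), mul_comm]
      congr 1
    · intro c _ hc
      rw [if_neg, mul_zero]
      intro h
      apply hc
      apply Fin.ext
      simp only
      omega
    · intro h
      exact absurd (Finset.mem_univ _) h

theorem quad {e : Eqn} (he : e.Admissible) : Run7.h893.HO.QG e.n e.poly := QG_QA he.1 (nonint he.2.1)

theorem dat {r : ℕ} {e : Fin r → Eqn} {a b : Fin r → ℚ} {τ : ℤ} (he : Good e a b τ) {L : ℝ} (hL : 0 < L)
    (h : ∀ j, |((1 / a j : ℚ) : ℝ)| + |((-b j / a j - τ : ℚ) : ℝ)| ≤ L) :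
    DatL (fun j => (e j).n) (fun j => (e j).poly) (fun j => ((-b j / a j - τ : ℚ) : ℝ)) (fun j => ((1 / a j : ℚ) : ℝ)) L where
  q := fun j => quad (he.1 j).1
  q' := fun j => by
    show Run7.h893.HO.QG _ (dq _ (QA (e j).α))
    rw [dq_QA]
    exact QG_QA (he.1 j).1.1 (nonint' (he.1 j).1.2.1)
  tr := fun j => (QA_coeff (by have := (he.1 j).1.1; omega) (e j).α).trans (he.1 j).1.2.2.1
  ty := fun j => by
    rcases (he.1 j).1.2.2.2 with h | h
    · refine Or.inr fun h2 => h ?_
      have h3 : RatEq (QA (e j).α) (dq (e j).n (QA (e j).α)) := h2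
      rw [dq_QA] at h3
      exact RatEq_QA h3
    · exact Or.inl (QDeven (quad (he.1 j).1) h)
  c0 := fun j => by
    have h2 : (1 / a j : ℚ) ≠ 0 := one_div_ne_zero (he.1 j).2.1
    exact_mod_cast h2
  gc := fun j => by
    have h1 := par_gc (he.1 j).2.2
    exact_mod_cast h1
  L0 := hL
  cL := h
  sep := fun i j hij hc _ => by
    have h1 : (1 / a i + (-b i / a i - τ) : ℚ) = 1 / a j + (-b j / a j - τ) := by exact_mod_cast hc
    rw [par_s, par_s] at h1
    have h2 : (1 - b i) / a i = (1 - b j) / a j := by linarith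
    obtain ⟨h3, h4⟩ := he.2 i j hij h2
    refine ⟨fun h => h3 (RatEq_QA h), fun h => h4 ?_⟩
    have h5 : RatEq (QA (e i).α) (dq (e j).n (QA (e j).α)) := h
    rw [dq_QA] at h5
    exact RatEq_QA h5

theorem G_eq {e : Eqn} (he : e.Admissible) : e.G = Gp e.n e.poly := by
  ext X
  unfold Eqn.G Gp
  rw [J_eq]
  refine and_congr_right fun _ => ⟨fun h h2 => h ?_, fun h h2 => h ?_⟩
  · exact evenQD h2
  · exact QDeven (quad he) h2

theorem mem_G {e : Eqn} (he : e.Admissible) {z : ℂ} (hz : ‖z‖ < 1) (l : ℂ) : e.Y z l ∈ e.G := by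
  rw [G_eq he, Y_eq]
  exact Gp_mul (Hf_mem (quad he) ((QA_coeff (by have := he.1; omega) e.α).trans he.2.2.1) hz) (Gp_E (quad he) _)

theorem fixed {r m : ℕ} (e : Fin r → Eqn) (a b : Fin r → ℚ) (τ : ℤ) (c : Fin m → ℤ) (he : Good e a b τ) (hc : Letters c)
    (k g d δ D W : ℕ) (hg : 1 ≤ g) :
    ∃ κ C : ℝ, 0 < κ ∧ ∀ T : ℕ, 1 ≤ T → Bound k g d δ D W e a b τ c T (C * (T : ℝ) ^ (-κ)) := by
  classical
  set L : ℕ := 1 + (∑ s, (c s).natAbs) + ∑ j, ⌈|(1 / a j : ℚ)| + |(-b j / a j - τ : ℚ)|⌉₊ with hLd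
  have hcL : ∀ s, |(c s : ℝ)| ≤ (L : ℝ) := by
    intro s
    have h1 : (c s).natAbs ≤ ∑ s, (c s).natAbs :=
      Finset.single_le_sum (f := fun s => (c s).natAbs) (fun _ _ => Nat.zero_le _) (Finset.mem_univ s)
    have h2 : |c s| ≤ (L : ℤ) := by
      rw [← Int.natCast_natAbs]
      exact_mod_cast (by omega : (c s).natAbs ≤ L)
    exact_mod_cast h2
  have hLle : ∀ j, |(1 / a j : ℚ)| + |(-b j / a j - τ : ℚ)| ≤ (L : ℚ) := by
    intro j
    have h1 : ⌈|(1 / a j : ℚ)| + |(-b j / a j - τ : ℚ)|⌉₊ ≤ ∑ j, ⌈|(1 / a j : ℚ)| + |(-b j / a j - τ : ℚ)|⌉₊ :=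
      Finset.single_le_sum (f := fun j => ⌈|(1 / a j : ℚ)| + |(-b j / a j - τ : ℚ)|⌉₊)
        (fun _ _ => Nat.zero_le _) (Finset.mem_univ j)
    exact (Nat.le_ceil _).trans (by exact_mod_cast (by omega : _ ≤ L))
  have hL1 : 1 ≤ L := by omega
  have hLR1 : (1 : ℝ) ≤ L := by exact_mod_cast hL1
  have hLR : (0 : ℝ) < L := by linarith
  have hLle' : ∀ j, |((1 / a j : ℚ) : ℝ)| + |((-b j / a j - τ : ℚ) : ℝ)| ≤ (L : ℝ) := fun j => by
    exact_mod_cast hLle j
  have hD := dat he hLR hLle'
  have hWW := fun j => wex_QA (α := (e j).α) (he.1 j).1.1 (he.1 j).1.2.1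
  choose W' hW1 hW2 using hWW
  have hS : ∀ j, Sys (e j).n (Pool.Agent.Y119.HY.Am (e j).n) (Pool.Agent.Y119.HY.Bm (e j).n (e j).poly)
      (Hp (e j).n (e j).poly) (W' j) := by
    intro j
    refine Fm.sys (hD.q j) (fun a b => ?_) (hW1 j) (hW2 j)
    unfold Hp
    rw [Matrix.of_apply]
    exact sdc_hps_g (Fintype.card_fin _) (nonint (he.1 j).1.2.1) (hD.q j) a b
  obtain ⟨κ, hκ, C, hC, h1⟩ := tup_cm' (n := fun j => (e j).n) (Q := fun j => (e j).poly) hL1 hS hD
    (fun j => (he.1 j).2.1) hc.1 hc.2 hcL k g δ d D W hg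
  refine ⟨κ, C, hκ, fun T hT V hV hVD Ω => ?_⟩
  obtain ⟨h2, h3⟩ := h1 V hV hVD Ω T hT
  have hsub : {ξ : Fin k → ℂ | (∀ i, House g T (ξ i)) ∧ (Small a b τ c ξ ∨ Exceptional δ d W V e a b τ c Ω ξ)} ⊆
      {ξ : Fin k → ℂ | (∀ i, Pool.Agent.Y916.Sl.SInt g T (ξ i)) ∧
        ((∃ i, ‖ξ i - τ‖ ≤ L) ∨ ExcM (fun j => (e j).n) (fun j => (e j).poly) a b τ c δ d W V Ω ξ)} := by
    rintro ξ ⟨hξ, hE⟩
    refine ⟨fun i => hξ i, ?_⟩
    by_cases hs : ∃ i, ‖ξ i - τ‖ ≤ L
    · exact Or.inl hs
    right
    push Not at hs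
    have hns : ¬ Small a b τ c ξ := by
      rintro ⟨i, h4 | ⟨s, h4⟩ | ⟨j, h4⟩⟩
      · exact absurd (h4.trans hLR1) (not_le.2 (hs i))
      · exact absurd (h4.trans (hcL s)) (not_le.2 (hs i))
      · exact absurd h4 (not_le.2 (ne_of_big (he.1 j).2.1 (hLle' j) (hs i)).2.2)
    obtain ⟨l, hl, K, hL1, hL2, P, hPd, hPc, hP0, l', X, x, hX, hx, hPX⟩ := hE.resolve_left hns
    refine ⟨l, hl, K, hL1, hL2, P, hPd, hPc, ?_, l', X, x, fun i j => ?_, fun i => (char_iff _).1 (hx i), ?_⟩
    · rw [point_eq] at hP0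
      simp only [Y_eq, hlog_eq] at hP0
      exact hP0
    · rw [← G_eq (he.1 j).1]
      exact hX i j
    · rw [point_eq] at hPX
      exact hPX
  refine ⟨h2.subset hsub, le_trans ?_ h3⟩
  exact_mod_cast Set.ncard_le_ncard hsub h2

theorem diag {F : ℕ → ℕ → Prop} (h0 : ∀ T, F 0 T) (h : ∀ w, ∀ᶠ T in Filter.atTop, F w T) :
    ∃ w : ℕ → ℕ, Filter.Tendsto w Filter.atTop Filter.atTop ∧ ∀ T, F (w T) T := by
  classical
  have h1 : ∀ w, ∃ T₀, ∀ T, T₀ ≤ T → F w T := fun w => Filter.eventually_atTop.1 (h w)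
  choose T₀ hT₀ using h1
  refine ⟨fun T => Nat.findGreatest (fun w => T₀ w ≤ T) T, ?_, fun T => ?_⟩
  · rw [Filter.tendsto_atTop]
    intro b
    filter_upwards [Filter.eventually_ge_atTop (max b (T₀ b))] with T hT
    exact Nat.le_findGreatest ((le_max_left _ _).trans hT) ((le_max_right _ _).trans hT)
  · show F (Nat.findGreatest (fun w => T₀ w ≤ T) T) T
    by_cases h2 : Nat.findGreatest (fun w => T₀ w ≤ T) T = 0
    · rw [h2]
      exact h0 T
    · have h3 := Nat.findGreatest_of_ne_zero (P := fun w => T₀ w ≤ T) rfl h2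
      exact hT₀ _ T h3

theorem rat_finite (B : ℕ) : {q : ℚ | RatSize q B}.Finite := by
  refine (((Set.finite_Icc (-(B : ℤ)) B).prod (Set.finite_Iic B)).image fun p : ℤ × ℕ => (p.1 : ℚ) / p.2).subset ?_
  rintro q ⟨hq1, hq2⟩
  exact ⟨(q.num, q.den), ⟨abs_le.1 hq1, hq2⟩, Rat.num_div_den q⟩

theorem eqn_finite (r B : ℕ) : {e : Fin r → Eqn | ∀ j, (e j).n ≤ B ∧ ∀ i, RatSize ((e j).α i) B}.Finite := by
  have h2 : {e : Eqn | e.n ≤ B ∧ ∀ i, RatSize (e.α i) B}.Finite := by
    refine ((Set.finite_Iic B).biUnion (t := fun n => (fun α : Fin n → ℚ => (⟨n, α⟩ : Eqn)) ''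
      {α | ∀ j, α j ∈ {q : ℚ | RatSize q B}}) fun n _ => (Set.Finite.pi' fun _ => rat_finite B).image _).subset ?_
    rintro ⟨n, α⟩ ⟨hn, hα⟩
    exact Set.mem_biUnion (show n ∈ Set.Iic B from hn) ⟨α, hα, rfl⟩
  exact Set.Finite.pi' fun _ => h2

theorem pol_finite (r B : ℕ) : {a : Fin r → ℚ | ∀ j, RatSize (a j) B}.Finite :=
  Set.Finite.pi' fun _ => rat_finite B

theorem int_finite (B : ℕ) : {τ : ℤ | |τ| ≤ B}.Finite :=
  (Set.finite_Icc (-(B : ℤ)) B).subset fun _ h => abs_le.1 h

theorem let_finite (m B : ℕ) : {c : Fin m → ℤ | ∀ s, |c s| ≤ B}.Finite :=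
  Set.Finite.pi' fun _ => int_finite B

theorem bound_ev {r m : ℕ} (e : Fin r → Eqn) (a b : Fin r → ℚ) (τ : ℤ) (c : Fin m → ℤ) (he : Good e a b τ)
    (hc : Letters c) (k g w : ℕ) (hg : 1 ≤ g) (hw : 1 ≤ w) :
    ∀ᶠ T : ℕ in Filter.atTop, Bound k g w w w w e a b τ c T (1 / (w : ℝ)) := by
  obtain ⟨κ, C, hκ, h⟩ := fixed e a b τ c he hc k g w w w w hg
  have hw' : (0 : ℝ) < 1 / w := by positivity
  have h1 : Filter.Tendsto (fun T : ℕ => C * (T : ℝ) ^ (-κ)) Filter.atTop (nhds 0) := by
    have h2 := ((tendsto_rpow_neg_atTop hκ).comp tendsto_natCast_atTop_atTop).const_mul C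
    rwa [mul_zero] at h2
  filter_upwards [h1.eventually_lt_const hw', Filter.eventually_ge_atTop 1] with T hT hT1 V hV hVD Ω
  obtain ⟨h3, h4⟩ := h T hT1 V hV hVD Ω
  exact ⟨h3, h4.trans (mul_le_mul_of_nonneg_right hT.le (by positivity))⟩

/-- For `|z| < 1` the matrices `Y(z)` lie in the torsors `G`, for all branches and all admissible equations, and if moreover
`|c_s z| < 1` for all `s`, then the numbers `L_w(z)` are a character of the shuffle algebra. For every good list
`e_1, …, e_r` of hypergeometric equations with linear polynomials `ℓ_1, …, ℓ_r` and an integer `τ`, all letters `c_1, …, c_m`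
and all `k`, `g`, `d`, `δ`, `D` and `W` there are `κ > 0` and `C` such that for every `ℚ`-space `V` of complex numbers of
dimension `≤ D` and all complex matrices `Ω_ij` at most `C T^(-κ) N^k` of the `N^k` `k`-tuples of algebraic integers of degree
`≤ g` with conjugates of size `≤ T` are small or exceptional. In particular there is a function `w(T)` which tends to infinity
such that this number is at most `N^k / w(T)` for all `T`, all good lists of at most `w(T)` equations and polynomials and all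
lists of at most `w(T)` letters with data of size at most `w(T)` and all parameters `k`, `g`, `d`, `δ`, `D` and `W` of size at
most `w(T)`. -/
theorem result :
    (∀ z : ℂ, ‖z‖ < 1 → (∀ e : Eqn, e.Admissible → ∀ l : ℂ, e.Y z l ∈ e.G) ∧
      ∀ (m : ℕ) (c : Fin m → ℤ), (∀ s, ‖(c s : ℂ) * z‖ < 1) → Character fun w => hlog c w z) ∧
    (∀ (r m : ℕ) (e : Fin r → Eqn) (a b : Fin r → ℚ) (τ : ℤ) (c : Fin m → ℤ), Good e a b τ → Letters c →
      ∀ k g d δ D W : ℕ, 1 ≤ g →
      ∃ κ C : ℝ, 0 < κ ∧ ∀ T : ℕ, 1 ≤ T → Bound k g d δ D W e a b τ c T (C * (T : ℝ) ^ (-κ))) ∧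
    ∃ w : ℕ → ℕ, Filter.Tendsto w Filter.atTop Filter.atTop ∧ ∀ T : ℕ, ∀ r ≤ w T, ∀ m ≤ w T, ∀ (e : Fin r → Eqn)
      (a b : Fin r → ℚ) (τ : ℤ) (c : Fin m → ℤ), Good e a b τ → Letters c → Size e a b τ c (w T) →
      ∀ k ≤ w T, ∀ g ≤ w T, 1 ≤ g → Bound k g (w T) (w T) (w T) (w T) e a b τ c T (1 / (w T : ℝ)) := by
  refine ⟨fun z hz => ⟨fun e he l => mem_G he hz l, fun m c hc => hlog_char c hz hc⟩,
    fun r m e a b τ c he hc k g d δ D W hg => fixed e a b τ c he hc k g d δ D W hg, ?_⟩
  refine diag (F := fun w T => ∀ r ≤ w, ∀ m ≤ w, ∀ (e : Fin r → Eqn) (a b : Fin r → ℚ) (τ : ℤ) (c : Fin m → ℤ),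
    Good e a b τ → Letters c → Size e a b τ c w →
    ∀ k ≤ w, ∀ g ≤ w, 1 ≤ g → Bound k g w w w w e a b τ c T (1 / (w : ℝ)))
    (fun T r _ m _ e a b τ c _ _ _ k _ g hg hg1 => by omega) fun w => ?_
  rcases Nat.eq_zero_or_pos w with rfl | hw
  · exact Filter.Eventually.of_forall fun T r _ m _ e a b τ c _ _ _ k _ g hg hg1 => by omega
  have h1 : ∀ᶠ T : ℕ in Filter.atTop, ∀ r ∈ Set.Iic w, ∀ m ∈ Set.Iic w,
      ∀ e ∈ {e : Fin r → Eqn | ∀ j, (e j).n ≤ w ∧ ∀ i, RatSize ((e j).α i) w},
      ∀ a ∈ {a : Fin r → ℚ | ∀ j, RatSize (a j) w}, ∀ b ∈ {a : Fin r → ℚ | ∀ j, RatSize (a j) w},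
      ∀ τ ∈ {τ : ℤ | |τ| ≤ w}, ∀ c ∈ {c : Fin m → ℤ | ∀ s, |c s| ≤ w}, ∀ k ∈ Set.Iic w, ∀ g ∈ Set.Iic w,
        Good e a b τ → Letters c → 1 ≤ g → Bound k g w w w w e a b τ c T (1 / (w : ℝ)) := by
    rw [Filter.eventually_all_finite (Set.finite_Iic w)]
    intro r _
    rw [Filter.eventually_all_finite (Set.finite_Iic w)]
    intro m _
    rw [Filter.eventually_all_finite (eqn_finite r w)]
    intro e _
    rw [Filter.eventually_all_finite (pol_finite r w)]
    intro a _
    rw [Filter.eventually_all_finite (pol_finite r w)]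
    intro b _
    rw [Filter.eventually_all_finite (int_finite w)]
    intro τ _
    rw [Filter.eventually_all_finite (let_finite m w)]
    intro c _
    rw [Filter.eventually_all_finite (Set.finite_Iic w)]
    intro k _
    rw [Filter.eventually_all_finite (Set.finite_Iic w)]
    intro g _
    by_cases hg : Good e a b τ
    · by_cases hc : Letters c
      · by_cases hg1 : 1 ≤ g
        · filter_upwards [bound_ev e a b τ c hg hc k g w hg1 hw] with T hT _ _ _ using hT
        · exact Filter.Eventually.of_forall fun T _ _ h => absurd h hg1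
      · exact Filter.Eventually.of_forall fun T _ h => absurd h hc
    · exact Filter.Eventually.of_forall fun T h => absurd h hg
  filter_upwards [h1] with T hT r hr m hm e a b τ c hg hc hs k hk g hgw hg1
  exact hT r hr m hm e hs.1 a hs.2.1 b hs.2.2.1 τ hs.2.2.2.1 c hs.2.2.2.2 k hk g hgw hg hc hg1

end Pool.Agent.Results.MP_12eca1_ag.CorrelatedMixedMotives
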