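import Mathlib
import Pool.Agent.Run7.h8.IC.VFinal

/-!
# Period relations of motives of CM type of CM fields with isolated cycles of automorphisms

Let `A i = (E i, Φ i)` be finitely many CM types, with arbitrary types, and let `M` be the sum of
the motives `h^1 (A i)` of the corresponding abelian varieties over the field `k` of algebraic
numbers; it is a Nori motive, and by theorems of Deligne and André its motivic Galois group
`G_mot(M)` is the Mumford-Tate group, a torus. We consider the consequence of Q1 that the period
matrix of `M` satisfies no equations over `k` except for those of the torsor of `G_mot(M)`: in
particular, if `N` is any object of the tannakian category generated by `M`, then every de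
Rham-Betti class of `N` (an element of the Betti realisation which is mapped by the comparison
isomorphism to the de Rham realisation over `k`) is invariant under `G_mot(M)`, a Hodge class. For
a torus this is the assertion that no algebraic group `G ⊂ GL(H(M))`, smaller than `G_mot(M)`, has
a torsor over `k` which contains the comparison isomorphism: a torus is determined by its
invariants in the tensor spaces. (All multiplicative relations, over `k`, between the periods of
`M` are of this form.) The tensor spaces are, up to Tate twists and duals (which are given by
polarizations), contained in the cohomology of the products `X` of copies of the `A i`, so the
consequence of Q1 says that every de Rham-Betti class in `H^{2k}(X)(k)`, for all `X` and `k`, is a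
Hodge class (`AllHodge`).

As in the starting files (`Pool.Agent.W537.PC`, MP_f11a48_ag) the periods enter as a
`PeriodSystem`: a nonzero number `θ A φ` for every CM type `A = (E, Φ)` and every embedding `φ` of
`E`, such that the theorem of Bost (de Rham-Betti classes of degree two on abelian varieties of CM
type are Hodge classes; a consequence of the theorem of Wüstholz) and the theorem of Deligne
(Hodge classes on abelian varieties are de Rham-Betti classes) hold. Both are theorems for the
true periods.

The assumption on the CM types (`AbelianOrCyclic`): let `T i ⊆ E i`, `i ∈ S ≠ ∅`, be CM subfields.
The excess of an embedding `ψ` of `T i` is the number of elements of `Φ i` that extend `ψ` minus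
the number of the other extensions. If no two of the excess functions `τ ↦` excess of `τ ψ` on
the group of automorphisms of `ℂ` are proportional with a positive factor (`SeparatedFamily`),
then all `T i`, `i ∈ S`, are abelian over `ℚ`, or one of the following conditions holds.

* (`Isolated`) Some automorphism `τ` of `ℂ` has an *isolated cycle* on the complex embeddings of
  the `T i`: for one embedding `ψ` the cycle of `ψ` under `τ` has `n > 1` elements, where `n` is
  any power of any prime number (or `n = 2 ^ a r ^ b`, `a > 0`, `r` an odd prime number, and the
  cycle is stable under complex conjugation), and `n` does not divide the length of any other
  cycle, except for that of the complex conjugate of `ψ`. By the theorem of Chebotarev this is a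
  condition on the decomposition of prime numbers: some prime number, unramified in the `T i`,
  has exactly one prime ideal, or one pair of complex conjugate prime ideals, in the fields `T i`
  whose residue degree is divisible by `n`, and this residue degree is `n`.
* (`MildFamily`) One of the conditions of the starting file MP_f11a48_ag MildCMMotives: some prime
  number divides the discriminant of one of the `T i`, but its third power does not divide the
  product of their discriminants; or some automorphism moves at least one and at most four of
  the embeddings of the `T i`; or some automorphism acts on the pairs of conjugate embeddings as
  one cycle of odd prime length and fixes all other embeddings.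

An example (second part of the theorem, `IsPrimePower`), in which there is no condition on the
CM subfields: `A` is one abelian variety of CM type `(E, Φ)`, `E` is **any** CM field of degree
`2 r ^ k`, `r` a prime number, such that some automorphism of `ℂ` acts on the pairs of complex
conjugate embeddings of `E` as one cycle (`OneOrbit`; for instance some prime number is inert in
the maximal real subfield of `E`, or is totally ramified there and does not divide the degree),
and `Φ` is any CM type.

The conclusion. 1. **Criterion: All de Rham-Betti classes on all products are Hodge classes if and
only if this is true for the relations with two terms** (`TwoTermRelations`): for an embedding `ψ`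
of a CM subfield `T` of `E i` let `Π ψ` be the product of the numbers `θ φ ^ 2 / (2 π i)` over the
extensions `φ` of `ψ` to `E i` (the period of the determinant of `h^1 (A i)` over `T`); if all
conjugates of `(Π ψ) ^ m / (Π ψ') ^ n` are algebraic, for embeddings `ψ`, `ψ'` of CM subfields of
`E i`, `E i'` (the same subfield if `i = i'`), then `m` times the excess function of `ψ` is `n`
times the excess function of `ψ'`.

2. The relations with two terms are explained in this way, so that all de Rham-Betti classes are
Hodge classes, if every CM subfield `T` of every `E i` is abelian over `ℚ`, or has excess of
constant absolute value (for instance `T = E i`), or contains no smaller CM field and has excesses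
with at most one nonzero absolute value, and if isomorphic CM subfields of different `E i` are
abelian over `ℚ` (`SimpleSubfields`).

3. **In particular all multiplicative relations between the periods of `A` come from Hodge
classes, without any further hypothesis, if `A` is of CM type `(E, Φ)`, `Φ` any CM type, `E` has
degree `2 r ^ k`, some automorphism acts on the pairs of conjugate embeddings of `E` as one cycle,
and all proper CM subfields of `E` are abelian over `ℚ`** (for instance imaginary quadratic or
cyclotomic, or there are none).

The starting file MP_f11a48_ag MildCMMotives (W527) has the criterion 1. and the consequence 2.
with the conditions `MildFamily`. New is that the length of the cycle can be any prime power,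
including powers of two, or `2 ^ a r ^ b`, and that the other embeddings can move, as long as the
lengths of their cycles are not divisible by `n`; so the second part of the theorem is new for `r
^ k > 4`, `k > 1`. The transfer of relations to smaller CM subfields and the sufficient conditions
for the relations with two terms (`SimpleSubfields`) are those of the starting files
(`Pool.Agent.W527`; the proofs of two theorems are repeated in Run7/h8/IC/VTransfer and VMain with
the new alternative), and the `PeriodSystem` is that of `Pool.Agent.W537.PC`.

The proof. A de Rham-Betti class gives relations `∑ c (z) w (g z) = 0` for all automorphisms `g`,
where `w (z)` is the logarithm of a normalised period, a vector in the rational vector space `ℂ^*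
⊗ ℚ` modulo the algebraic numbers, and `c` is an odd function on the embeddings of a family of CM
subfields, as small as possible. We apply a linear functional and the relation for `g τ ^ j`,
multiply by `ζ ^ (-j)`, where `ζ` is a primitive `n`-th root of unity, and sum over `j`. The
cycles whose length is not divisible by `n` do not contribute. So for all automorphisms `h`, `g`
the product of `∑ c (h τ ^ i ψ) ζ ^ i` and of `∑ w (g τ ^ j ψ) ζ ^ (-j)` is zero. If the first sum
is zero for all `h`, then the irreducibility of the cyclotomic polynomial gives `c (h ψ) = c (h τ
^ (n / r) ψ)` for all `h`, so that `c` comes from smaller CM subfields. If not, then in the same
way `w (g ψ) = w (g τ ^ (n / r) ψ)` for all `g`: a relation with two terms between the periods.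
-/

set_option autoImplicit false

namespace Pool.Agent.Results.MP_12eca1_ag.IsolatedCycles

open Pool.Agent.W547.KB Pool.Agent.W537.PC Pool.Agent.W527.Per Pool.Agent.W527.Struct
  Run7.h8.IC.Vec Run7.h8.IC.CMT

/-- **The relations between the periods of products of abelian varieties of CM type of CM fields with
isolated cycles.** -/
theorem result (P : PeriodSystem) (hBost : P.Bost) (hDeligne : P.Deligne) :
    (∀ (ι : Type) [Fintype ι] (A : ι → CMPair), AbelianOrCyclic A →
      (AllHodge P A ↔ TwoTermRelations P A) ∧ (SimpleSubfields A → AllHodge P A)) ∧
    ∀ A : CMPair, IsPrimePower A →
      (AllHodge P (fun _ : Unit => A) ↔ TwoTermRelations P fun _ : Unit => A) ∧
      ((∀ T : IntermediateField ℚ A.E, IsCM T → T = ⊤ ∨ IsAbelian T) →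
        AllHodge P fun _ : Unit => A) :=
  ⟨fun _ _ A hA => of_abelianOrCyclic A hBost hDeligne hA,
    fun _ h => of_primePower hBost hDeligne h⟩

end Pool.Agent.Results.MP_12eca1_ag.IsolatedCycles
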