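import Pool.Agent.Run7.h358.A1.Om

set_option autoImplicit false

/-!
# 1-motives over abelian varieties whose Hodge group is of type `A_1`

Let `A` be an abelian variety over the field `ℚ̄` of algebraic numbers, with a polarization `φ`. Let
`P_i = exp(u_i)` and `Q_l = φ(exp(v_l))` be algebraic points of `A` and of the dual abelian variety,
`G_Q` the extension of `A` by `G_m^s` given by the `Q_l`, and `M = [ℤ^n → G_Q]` a 1-motive over `ℚ̄`
with the images `e_i ↦ R_i` above `P_i`. The periods of `M` are `2 π i`, the periods and
quasi-periods of `A`, the abelian integrals `u_i` and the integrals of the second kind `h_k(u_i)`,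
the periods of the third kind `∑ k, (h_k(v_l) λ_k - v_lk η_k)`, and the integrals of the third kind
`ℓ_il`. All 1-motives over `A` are of this form, up to isogeny (`IsOneMotive`, see the starting file
`MP_5d33ca_ag.UnitaryOneMotives`, whose definitions are used).

The motivic Galois group of `M` is the Mumford-Tate group `MT(M)` of the mixed Hodge structure
`H_1(M)` (Brylinski, André). The period conjecture predicts that the comparison isomorphism is a generic
point, over `ℚ̄`, of its torsor under this group. A consequence is that *every* algebraic group
`G ⊆ GL(H_B(M))` over `ℚ`, with a torsor over `ℚ̄` which contains the comparison isomorphism,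
contains the group `MT(M)`: no algebraic group over `ℚ` which is smaller than the motivic Galois group
explains the periods (in the terminology of André: `Ω^And = Ω^dRB`, for `M` and for all motives in
the tensor category generated by `M`).

**Theorem.** Let `M` be *any* 1-motive over `ℚ̄` whose abelian part `A` is a factor (up to isogeny) of an
abelian variety `C` whose Hodge group is of type `A_1` (`TypeA1`, see below; the condition on pairs of
factors is satisfied after the replacement of `C` by a larger abelian variety). Let `G` be an algebraic
group over `ℚ` with a torsor over `ℚ̄` which contains the comparison isomorphism of `M`.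

1. `G` contains the derived group of `MT(M)`: it contains `exp (t Z)` for all complex numbers `t` and all
   `Z` in the derived algebra of the Lie algebra of `MT(M)` (which contains the Lie algebra of the
   unipotent radical).
2. If the condition `ControlledCentre` on the centre of the Hodge group of `C` is satisfied, then `G`
   contains `MT(M)`.

In particular part 2 is true for *all* 1-motives over `ℚ̄` whose abelian part `A` is a factor of an abelian
variety whose Hodge group is of type `A_1`, if the centres of the endomorphism algebras of its simple factors
of type IV are abelian over `ℚ` (or if there are no such factors), or whose abelian part is a factor of a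
power of a simple abelian fourfold of type IV(2,1). For example let
`C` be a fourfold of Mumford (`End(C) = ℤ`, with Hodge group of dimension nine and
`H_1(C, ℂ) = ℂ² ⊗ ℂ² ⊗ ℂ²`), `P` a point of infinite order in `C(ℚ̄)` and `M = [ℤ → C]`: the motivic Galois group is
the semidirect product of `MT(C)`, of dimension ten, and of `H_1(C, ℚ)`, of dimension eight; every
group `G` as above contains it.

There is no condition on the points: they may be dependent over `End(A)`, and the deficient 1-motives of
Ribet and Jacquinot are included, whose Mumford-Tate group is smaller than the relations between the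
points predict. There is no condition on the Mumford-Tate domain, and `G` is not assumed to be reductive.

The earlier results of this repository on 1-motives (`OneMotivesMumfordTate`, `UnitaryOneMotives` on
MP_5d33ca_ag): the first one needs that the Lie algebra of the Hodge group has no proper
subalgebra, closed under replicas, which acts semisimply with the same commutant, and this was proved for
other types: planes (among the abelian varieties of type `A_1` these are the products of elliptic curves,
and abelian varieties with real or totally indefinite quaternionic multiplication), spin representations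
(among them some Kuga-Satake varieties with compact factors), tori, and factors of such abelian varieties;
the fourfolds of Mumford, all other symplectic representations of groups of type `A_1` and centres are
not covered. The second one is on unitary types. In the literature there are the theorems of Kreutz, Shen
and Vial and of Ji on the (pure) de Rham-Betti groups of abelian varieties: products of elliptic curves,
some abelian surfaces, and the simple abelian fourfolds of type IV with complex multiplication, or such that
`End(A) ⊗ ℚ` is a quadratic field.

Nothing is assumed about periods: `AbVar` and `AbVarG` are descriptions of abelian varieties over `ℚ̄`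
by theta functions (see `Pool/Agent/Y102/AVDefs.lean`), and the transcendence theorems which are used,
the theorem of Schneider and Lang and the transcendence of `π`, are proved in this repository. In the
following two sections the abelian variety `C` is denoted by `A`.

## Type `A_1`

Let `𝔤` be the Lie algebra of the endomorphisms of `H_1(A, ℚ)` which annihilate all classes that are Hodge
classes and de Rham-Betti classes (`InLie`); by the theorem of Deligne it is the Lie algebra of the Hodge
group of `A`. The Hodge group is *of type `A_1`* if the derived algebra of `𝔤 ⊗ ℂ` is a sum of Lie algebras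
`sl(2)`. By the classification of the symplectic representations of Hodge groups (Deligne, Satake) the
irreducible constituents of `H_1(A, ℂ)` are then tensor products `V_S ⊗ χ` of the standard representations of
the factors `i ∈ S` and of a character of the centre. In `TypeA1` the factors are given by
homomorphisms `φ i` (without unit element) from the algebra of the matrices of size two to the
endomorphisms of `H_1(A, ℂ)`, such that `𝔤 ⊗ ℂ` is the sum of its centre and of the `φ i (sl(2))`. Let
`i ≠ k` be two factors. We assume that one of the following is true:

* (`CompactAt`) for some automorphism `σ` of `ℂ` one of the conjugates `σ(i)` and `σ(k)` is a compact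
  factor (it commutes with the complex structure of `H_1(A, ℝ)`), and the other one is not compact;
* (`InSeparatedPosition`) there is a constituent on which `i` and `k` both act nontrivially, or there are
  constituents `V ⊗ U` and `V' ⊗ U`, where `V` and `V'` are the standard representations of `i` and `k`, and
  `U` is a representation of the other factors and of the centre.

**Every abelian variety `A` over `ℚ̄` whose Hodge group is of type `A_1` is a factor of an abelian variety
over `ℚ̄` with this property.** Suppose that the first condition is false for `i` and `k`, and that `k` acts
trivially on a constituent `V ⊗ U`, where `V` is the standard representation of `i`. Then for all `σ` the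
conjugate by `σ` of `V' ⊗ U` has the same Hodge types as that of `V ⊗ U`, that is `(-1, 0)` and `(0, -1)`, as
`σ(i)` and `σ(k)` are both compact or both noncompact. So there is an abelian variety `A'` whose constituents
are these representations, and it is defined over `ℚ̄`, as it has the same adjoint Hodge group as `A` (the
maps between the Shimura varieties are defined over `ℚ̄`). The factors `i` and `k` are in separated position
for `A × A'`, whose Hodge group has the same adjoint group; and its centre is zero if the centre of the Hodge
group of `A` is finite. The motives in the tensor category generated by `h^1(A)` are among those in the tensor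
category generated by `h^1(A × A')`.

Examples of abelian varieties whose Hodge group is of type `A_1`: all products of elliptic curves; the
abelian surfaces with real or quaternionic multiplication; the simple abelian varieties of the types I and II
of Albert whose commutant of `End(A)` has dimension four over its centre; the abelian varieties of Mumford
(`H_1(A, ℂ) = ℂ² ⊗ ℂ² ⊗ ℂ²`, `End(A) = ℤ`, with Hodge classes on `A ^ 2` which are not combinations of products of
classes of divisors) and their generalizations; the Kuga-Satake varieties of Hodge structures of K3 type of
rank three and four over the field of their endomorphisms, if it is totally real; the simple abelian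
fourfolds of type IV(2,1), where `End(A) ⊗ ℚ` is a CM field of degree four; in general,
the abelian varieties which belong to the quaternionic Shimura varieties of all totally real fields `F₀`,
for instance to the Shimura curves, for all symplectic embeddings (the *modèles étranges* of Deligne), where some
factors are compact; and all products of such abelian varieties and abelian varieties with complex
multiplication.

## The centre

The condition `ControlledCentre`: `A` is a factor of an abelian variety `C` such that the centre of the Lie
algebra of the Hodge group of `C` is rigid, and all elements of the centre of `𝔤` are restrictions of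
elements of it. *Rigid* means: for every element `X` of the centre which generates it relative to the derived
algebra (`Generates`), all relations `∑ x i = 0` between eigenvalues of `X` for eigenvectors `v i` imply the
relations `∑ y i = 0` for the eigenvalues of all elements `Y` of the centre, for the same eigenvectors.
If `A` has no factor of type IV then the centre is zero, and the condition is true with `C = A`.

**The condition is true for all `A` such that the centres of the endomorphism algebras of the simple factors
of type IV are abelian over `ℚ`.** Let `L` be a CM field which contains these centres and is Galois over `ℚ`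
with an abelian group `Γ`, and let `C` be the product of `A` and of the abelian varieties `A_Φ` with complex
multiplication by `L` and of the type `Φ`, for all CM types `Φ ⊆ Γ`. The centre of the Lie algebra of the
Hodge group of `C` consists of the elements `x ∈ L` with `x̄ = - x`: it is the odd part of the Lie algebra of
the Serre torus of `L`, as this torus is generated by the conjugates of its cocharacter, and is mapped onto
the centre for `A`. The eigenvalues of `x` on `H_1(A_Φ, ℂ)` are the conjugates of `∑_{t ∈ Φ} t⁻¹(x)`, and all
the eigenvalues on `H_1(C, ℂ)` are of the form `∑_t c_t t⁻¹(x)` with odd rational functions `c` on `Γ`. A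
nonzero odd function `f` with the values `0`, `1`, `-1` is the difference of two CM types `Φ`, `Φ'`, and so
`∑_t f_t t⁻¹(x) ≠ 0` if `x` is generating: otherwise a homomorphism between the homologies of `A_Φ` and `A_Φ'`
commutes with `x`, and not with the centre. The odd functions `c` with `∑_t c_t t⁻¹(x) = 0` are an ideal of
`ℚ[Γ]`. If there is a function `c ≠ 0` in it, let `χ` be a character of `Γ` with `∑_t c_t χ(t) ≠ 0`, let `N` be the
kernel of `χ`, and `τ_q ∈ Γ` an element whose image in the cyclic group `Γ / N` is of order `q`, for all prime
numbers `q` which divide the order of this group. The element `f = ∏_q (1 - τ_q) ∑_{n ∈ N} n` has the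
coefficients `0`, `1`, `-1`, and it is in the ideal, because `ψ(f) ≠ 0` for the conjugates `ψ` of `χ` only.
This is a contradiction, so the only relations between the eigenvalues of `x` are those which hold for
all elements of the centre. (This is the argument of the starting file `MP_470b79_ag.AbelianCMTensors` on
complex multiplication by abelian fields.)

Let `A` be a simple abelian fourfold such that `End(A) ⊗ ℚ` is a CM field `F` of degree four. Then `A` is of
type `A_1` with one compact and one noncompact factor (Shimura), and the centre consists of the elements
`x ∈ F` with `x̄ = - x`. If `F` is not abelian over `ℚ` then it has no imaginary quadratic subfield, and so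
different conjugates `a`, `b ≠ - a` of such an element `x ≠ 0` are linearly independent over `ℚ`, and the
centre is rigid. So `ControlledCentre` holds for all simple abelian fourfolds with `End(A) ⊗ ℚ` a quartic CM
field.

## Proof

1. The image `𝔥` of the Lie algebra of `G` in the endomorphisms of `H_1(A, ℚ)`, up to the weights,
   contains the logarithmic derivatives of the periods of `A`. Let `𝔮` be the Lie algebra of the
   elements of the Lie algebra `𝔤` of the Hodge group of `C` whose restriction to `H_1(A, ℚ)` is in `𝔥`. It
   acts semisimply on `H_1(C, ℚ)`, with the commutant `End(C) ⊗ ℚ` (Wüstholz, Bost).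
2. All such subalgebras `𝔮` of `𝔤` contain `[𝔤, 𝔤]` (`WeakA1.derFull`). The proof is that of
   `MP_f11a48_ag.TypeA1Motives` (`Run7/h358/A1`): `𝔮 ⊗ ℂ` is mapped onto all the factors `sl(2)`, so that it
   is enough to show that no two factors are linked. In separated position a link gives an endomorphism of
   `H_1(C, ℂ)` which commutes with `𝔮` and not with `𝔤` (this part is due to helper21, `Y102/T4`). The
   conjugates of links are links, and a compact factor is not linked to a noncompact one: the squares of
   the components of the elements of `𝔮 ⊗ ℝ` are scalars `≤ 0` at the compact factor, and not always at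
   the noncompact factor.
3. The argument of the starting file `N208/OU` on real Lie algebras and mixed Hodge structures gives part 1
   (`U2.om_der`, `DerFull.om_der`).
4. The Lie algebras `𝔥` and `𝔮` are closed under replicas of semisimple elements, and so the whole centre of
   `𝔤` is in `𝔮` (`A1.cn_le_fac`). With 2 one gets `𝔤 ⊆ 𝔮`, so the complex structure of
   `H_1(A, ℝ)` is in `𝔥 ⊗ ℝ` (`DerFull.detJ`), and the complex structure of the 1-motive is in the complex
   span of the Lie algebra of `G` (`hodge_stab6` of the starting files; it uses the theorem on periodic
   functions for the deficient 1-motives).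
-/

open Module Matrix Pool.Agent.Y102 Pool.Agent.W516.DR Pool.Agent.H204R3.GP Pool.Agent.R917.OM
  Pool.Agent.N208.OneM

noncomputable section

namespace Pool.Agent.Results.MP_12eca1_ag.TypeA1OneMotives

variable {g : ℕ} (A : AbVar g)

/-! ### Type `A_1` -/

/-- The complex Lie algebra `𝔤 ⊗ ℂ`, acting on `H_1(A, ℂ)`. -/
def lieC : Submodule ℂ (Matrix (Fin (2 * g)) (Fin (2 * g)) ℂ) :=
  Submodule.span ℂ {Y | ∃ X, InLie A X ∧ Y = toC A X}

/-- `z` commutes with `𝔤 ⊗ ℂ`. -/
def CommutesWithLie (z : Matrix (Fin (2 * g)) (Fin (2 * g)) ℂ) : Prop := ∀ Y ∈ lieC A, z * Y = Y * z

/-- The complex structure: the matrix of the multiplication by `i` on `H_1(A, ℝ) = ℂ ^ g`, in the basis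
of the lattice. -/
def complexStructure : Matrix (Fin (2 * g)) (Fin (2 * g)) ℂ :=
  Matrix.of fun i j => ((A.lam.repr (Complex.I • A.lam j) i : ℝ) : ℂ)

/-- The conjugate by the automorphism `σ` of `ℂ` of the factor `ψ` is compact: it commutes with the
complex structure. -/
def CompactAt (σ : ℂ ≃+* ℂ)
    (ψ : Matrix (Fin 2) (Fin 2) ℂ →ₗ[ℂ] Matrix (Fin (2 * g)) (Fin (2 * g)) ℂ) : Prop :=
  ∀ a, complexStructure A * (ψ a).map σ = (ψ a).map σ * complexStructure A

/-- The factors `i` and `k` act nontrivially on a common constituent of `H_1(A, ℂ)`, or there are
constituents `V ⊗ U` and `V' ⊗ U`, where `V` and `V'` are the standard representations of the factors `i`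
and `k`, and `U` is a representation of the other factors and of the centre. -/
def InSeparatedPosition {n : ℕ}
    (φ : Fin n → Matrix (Fin 2) (Fin 2) ℂ →ₗ[ℂ] Matrix (Fin (2 * g)) (Fin (2 * g)) ℂ)
    (i k : Fin n) : Prop :=
  φ i 1 * φ k 1 ≠ 0 ∨ ∃ N : Matrix (Fin (2 * g)) (Fin (2 * g)) ℂ,
    N ≠ 0 ∧ φ i 1 * N = N ∧ N * φ k 1 = N ∧
      (∀ l, l ≠ i → l ≠ k → ∀ a, N * φ l a = φ l a * N) ∧
      ∀ z ∈ lieC A, CommutesWithLie A z → N * z = z * N

/-- **Type `A_1`.** The Lie algebra `𝔤 ⊗ ℂ` is the sum of its centre and of `n` Lie algebras `sl(2)`,
which act by tensor products of standard representations. For two factors some automorphism of `ℂ` maps one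
of them to a compact factor and the other one to a noncompact factor, or they are in separated
position. -/
def TypeA1 : Prop :=
  ∃ (n : ℕ) (φ : Fin n → Matrix (Fin 2) (Fin 2) ℂ →ₗ[ℂ] Matrix (Fin (2 * g)) (Fin (2 * g)) ℂ),
    (∀ i a b, φ i (a * b) = φ i a * φ i b) ∧
    (∀ i k, i ≠ k → ∀ a b, φ i a * φ k b = φ k b * φ i a) ∧
    (∀ i, φ i 1 ≠ 0) ∧
    (∀ i x, x.trace = 0 → φ i x ∈ lieC A) ∧
    (∀ X ∈ lieC A, ∃ x : Fin n → Matrix (Fin 2) (Fin 2) ℂ, (∀ i, (x i).trace = 0) ∧
      CommutesWithLie A (X - ∑ i, φ i (x i))) ∧
    ∀ i k, i ≠ k → InSeparatedPosition A φ i k ∨
      ∃ σ : ℂ ≃+* ℂ, ¬ (CompactAt A σ (φ i) ↔ CompactAt A σ (φ k))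

/-! ### The centre -/

/-- `A` is a factor of an abelian variety `C` such that the centre of the Lie algebra of the Hodge
group of `C` is rigid and acts on `A` through all elements of the centre of `𝔤`. -/
def ControlledCentre : Prop :=
  ∃ (g' : ℕ) (C : AbVar g') (f : A.H1 →ₗ[ℚ] C.H1) (p : C.H1 →ₗ[ℚ] A.H1),
    IsFactor A C f p ∧ RigidCentre C ∧
    ∀ Y, InCentre A Y → ∃ X, InCentre C X ∧ ∀ v, p (X (f v)) = Y v

/-! ### The proof -/

variable {A}

theorem complexStructure_eq (A : AbVar g) :
    complexStructure A = Run7.h358.A1.cR (Run7.h358.A1.JM A) := by
  ext i j
  change ((A.lam.repr (Complex.I • A.lam j) i : ℝ) : ℂ) =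
    algebraMap ℝ ℂ (LinearMap.toMatrix A.lam A.lam AbVar.JJ i j)
  rw [LinearMap.toMatrix_apply]
  rfl

theorem TypeA1.toWeak (h : TypeA1 A) : ∃ (n : ℕ)
    (φ : Fin n → Matrix (Fin 2) (Fin 2) ℂ →ₗ[ℂ] Matrix (Fin (2 * g)) (Fin (2 * g)) ℂ),
    Run7.h358.A1.WeakA1 A φ := by
  obtain ⟨n, φ, h1, h2, h3, h4, h5, h6⟩ := h
  refine ⟨n, φ, ⟨h1, h2, h3, h4, h5⟩, fun i k hik => ?_⟩
  rcases h6 i k hik with h7 | ⟨σ, h7⟩
  · exact Or.inl h7
  · right
    refine ⟨σ, ?_⟩
    unfold CompactAt at h7
    rw [complexStructure_eq] at h7
    exact h7

/-- **Theorem.** Let `M` be a 1-motive over `ℚ̄` whose abelian part `A` is a direct factor of an abelian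
variety `C` whose Hodge group is of type `A_1`, and let `G` be an algebraic group over `ℚ` with a torsor
over `ℚ̄` which contains the comparison isomorphism of `M`.

1. `G` contains `exp (t Z)` for all complex numbers `t` and all `Z` in the derived algebra of the Lie
   algebra of the Mumford-Tate group of `M`.
2. If the condition `ControlledCentre` is satisfied, then the Mumford-Tate group of `M` is contained in
   `G`. -/
theorem result (g n s : ℕ) (A : AbVarG g) (u : Fin n → Fin g → ℂ) (v : Fin s → Fin g → ℂ)
    (ℓ : Fin n → Fin s → ℂ) (hM : IsOneMotive A u v ℓ) (g' : ℕ) (C : AbVar g')
    (f : A.toAbVar.H1 →ₗ[ℚ] C.H1) (p : C.H1 →ₗ[ℚ] A.toAbVar.H1) (hF : IsFactor A.toAbVar C f p)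
    (hC : TypeA1 C) (G : Subgroup (GL (Betti g n s) ℂ)) (hG : IsAlgebraicSubgroup G)
    (hP : ContainsPeriods A u v ℓ G) :
    (∀ Z ∈ derived (mtLie A u v ℓ), ∀ t : ℂ, IsIn G (NormedSpace.exp (t • cplx Z))) ∧
    (ControlledCentre C → mumfordTate A u v ℓ ≤ G) := by
  obtain ⟨k, φ, hφ⟩ := hC.toWeak
  have hL := hφ.derFull
  have hfc := hfac hF
  refine ⟨fun Z hZ t => hL.om_der hM hG hP hfc hZ t, fun ⟨g'', D, f', p', hf, hr, hc⟩ => ?_⟩
  refine Run7.h358.U2.om_all hM hG hP (hL.detJ hfc fun 𝔥 hbr h0 hRC => ?_)
  exact Run7.h358.A1.cn_le_fac hfc
    (⟨⟨hf.inclusion.1, hf.inclusion.2⟩, ⟨hf.projection.1, hf.projection.2⟩, hf.split⟩)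
    (hr.toRigid D) (fun Y hY => by
      obtain ⟨X, hX, hXY⟩ := hc Y ⟨hY.1, fun Z hZ => hY.2 Z hZ⟩
      exact ⟨X, ⟨hX.1, hX.2⟩, hXY⟩) hbr h0 hRC

end Pool.Agent.Results.MP_12eca1_ag.TypeA1OneMotives
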