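import Pool.Agent.Run7.h10.QS.D2

/-!
The period conjecture for almost all algebraic fibres and for the very general fibre of a family of motives.

`f` is the family of all periods, and of constants such as `2 π i` or the periods of a fixed motive, of an arbitrary
family of motives over an open connected subset `U` of `ℂ ^ X` (for a family over a variety étale over the affine space
the coordinates of the variety, algebraic functions, are included in `f`). No hypothesis is made on the monodromy, and
`f` can be any analytic function. The theorem compares the relations between the values `f s` at algebraic points `s`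
with the relations over the algebraic numbers between the functions, that is with the relations at a very general point
`z`, where `k = ℚ(z)` and the field of periods `k(f z)` are of the kind considered by André.
-/

namespace Pool.Agent.Results.MP_12eca1_ag.VeryGeneralFibre

open Pool.Agent.Run7.h10.QS

/-- Let `U` be a nonempty open connected subset of `ℂ ^ X` and `f : U → ℂ ^ σ` analytic.
(1) New relations are rare: there is `ω → ∞` such that for all large `T` and all number fields `K` of degree at most `ω T`,
embedded in `ℂ`, the points `s` of `U` over `K` of height at most `T` (of norm at most `ω T` and distance at least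
`1 / ω T` from the complement of `U`), at which some polynomial relation of degree at most `ω T` in each variable with
coefficients in the integers of `K` of size at most `T ^ ω T` holds at the point `f s`, but not on a given irreducible
subset, containing `f s`, of the fibre over `s` of the Zariski closure over the field of algebraic numbers of the graph of
`f`, lie on at most `T ^ (1 / ω T)` hypersurfaces of degree at most `T ^ (1 / ω T)`, and there are at most
`T ^ (1 / ω T) * N ^ (|X| - 1)` of them, `N` being the number of elements of `K` of height at most `T`.
(2) If there is one point `z` of `U` such that the transcendence degree of `ℚ(z, f z)` is at least `|X| + d`, then there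
are `d` of the functions such that the points `s`, as in (1), at which their values satisfy any nontrivial relation, as
in (1), are few in the same sense.
(3) If there is no such point `z`, then any `d` of the functions are related: there is a nonzero polynomial `R` over `ℚ`
with `R(z, f_{i_1} z, …, f_{i_d} z) = 0` for all `z` in `U`. -/
theorem result {X σ : Type} [Fintype X] [DecidableEq X] [Nonempty X] [Fintype σ] [DecidableEq σ]
    {U : Set (X → ℂ)} (hUo : IsOpen U) (hU : IsPreconnected U) (hne : U.Nonempty)
    {f : (X → ℂ) → σ → ℂ} (hf : ∀ i, AnalyticOnNhd ℂ (fun z => f z i) U) :
    (Few fun K _ _ io k T => New K U f io k T) ∧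
    ∀ d : ℕ,
      ((∃ z ∈ U, ((Fintype.card X + d : ℕ) : Cardinal) ≤
          Algebra.trdeg ℚ (Algebra.adjoin ℚ (Set.range z ∪ Set.range (f z)))) →
        ∃ ι : Fin d → σ, Function.Injective ι ∧
          Few fun K _ _ io k T => Dependent K U (fun z i => f z (ι i)) io k T) ∧
      ((∀ z ∈ U, Algebra.trdeg ℚ (Algebra.adjoin ℚ (Set.range z ∪ Set.range (f z))) <
          ((Fintype.card X + d : ℕ) : Cardinal)) →
        ∀ ι : Fin d → σ, ∃ R : MvPolynomial (X ⊕ Fin d) ℚ, R ≠ 0 ∧
          ∀ z ∈ U, MvPolynomial.aeval (Sum.elim z fun i => f z (ι i)) R = 0) := by
  refine ⟨new_few hU hUo hne hf, fun d => ⟨?_, fun hd ι => exists_ratl hU hUo hne hf d hd ι⟩⟩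
  rintro ⟨z, hz, hd⟩
  obtain ⟨ι, hι, hind⟩ := exists_sub (f := fun i z => f z i) hU hUo hf hz d hd
  exact ⟨ι, hι, dep_few hU hUo hne (fun i => hf _) hind⟩

end Pool.Agent.Results.MP_12eca1_ag.VeryGeneralFibre
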